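import Mathlib

namespace Pool.Agent.Results.MP_5fe329_al.NotPoly

open MvPowerSeries

/-- Bounded total degree. -/
def Bdd {K : Type} [Field K] (f : MvPowerSeries ℕ K) : Prop :=
  ∃ D : ℕ, ∀ m : ℕ →₀ ℕ, coeff m f ≠ 0 → m.degree ≤ D

section
variable {K : Type} [Field K]
theorem bdd_zero : Bdd (0 : MvPowerSeries ℕ K) := ⟨0, by simp⟩
theorem bdd_one : Bdd (1 : MvPowerSeries ℕ K) := ⟨0, fun m hm => by
    classical
    rw [coeff_one] at hm
    have : m = 0 := by by_contra h; simp [h] at hm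
    simp [this]⟩
theorem bdd_neg {f : MvPowerSeries ℕ K} : Bdd f → Bdd (-f) := by
  rintro ⟨D, h⟩; exact ⟨D, fun m hm => h m (by simpa using hm)⟩
theorem bdd_add {f g : MvPowerSeries ℕ K} : Bdd f → Bdd g → Bdd (f + g) := by
  rintro ⟨D, h⟩ ⟨E, h'⟩
  refine ⟨D + E, fun m hm => ?_⟩
  by_cases h1 : coeff m f = 0
  · have := h' m (by simpa [h1] using hm); omega
  · have := h m h1; omega
theorem bdd_mul {f g : MvPowerSeries ℕ K} : Bdd f → Bdd g → Bdd (f * g) := by
  classical
  rintro ⟨D, h⟩ ⟨E, h'⟩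
  refine ⟨D + E, fun m hm => ?_⟩
  rw [coeff_mul] at hm
  obtain ⟨p, hp, h1⟩ := Finset.exists_ne_zero_of_sum_ne_zero hm
  rw [← Finset.HasAntidiagonal.mem_antidiagonal.1 hp, map_add]
  exact add_le_add (h _ (left_ne_zero_of_mul h1)) (h' _ (right_ne_zero_of_mul h1))
end

/-- The big ring `R`: formal series in `x_0, x_1, …` over `K` of bounded degree, i.e. finite sums
of (possibly infinite) homogeneous series. -/
def bigR (K : Type) [Field K] : Subring (MvPowerSeries ℕ K) where
  carrier := {f | Bdd f}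
  zero_mem' := bdd_zero
  one_mem' := bdd_one
  neg_mem' := bdd_neg
  add_mem' := bdd_add
  mul_mem' := bdd_mul

/-- Bounded denominators. -/
def Den (A : Type) {K : Type} [CommRing A] [Field K] [Algebra A K] (f : bigR K) : Prop :=
  ∃ a : A, a ≠ 0 ∧ ∀ m : ℕ →₀ ℕ, ∃ b : A,
    algebraMap A K a * coeff m f.1 = algebraMap A K b

section
variable {A K : Type} [CommRing A] [IsDomain A] [Field K] [Algebra A K]
theorem den_zero : Den A (0 : bigR K) := ⟨1, one_ne_zero, fun m => ⟨0, by simp⟩⟩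
theorem den_one : Den A (1 : bigR K) := ⟨1, one_ne_zero, fun m => by
    classical
    by_cases h : m = 0
    · exact ⟨1, by simp [h]⟩
    · exact ⟨0, by simp [coeff_one, h]⟩⟩
theorem den_neg {f : bigR K} : Den A f → Den A (-f) := by
  rintro ⟨a, ha, h⟩
  refine ⟨a, ha, fun m => ?_⟩
  obtain ⟨b, hb⟩ := h m
  exact ⟨-b, by simp [← hb]⟩
theorem den_add {f g : bigR K} : Den A f → Den A g → Den A (f + g) := by
  rintro ⟨a, ha, h⟩ ⟨a', ha', h'⟩
  refine ⟨a * a', mul_ne_zero ha ha', fun m => ?_⟩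
  obtain ⟨b, hb⟩ := h m
  obtain ⟨b', hb'⟩ := h' m
  refine ⟨a' * b + a * b', ?_⟩
  simp only [map_add, map_mul, ← hb, ← hb', Subring.coe_add]; ring
theorem den_mul {f g : bigR K} : Den A f → Den A g → Den A (f * g) := by
  classical
  rintro ⟨a, ha, h⟩ ⟨a', ha', h'⟩
  choose b hb using h
  choose b' hb' using h'
  refine ⟨a * a', mul_ne_zero ha ha', fun m =>
    ⟨∑ p ∈ Finset.HasAntidiagonal.antidiagonal m, b p.1 * b' p.2, ?_⟩⟩
  simp only [Subring.coe_mul, coeff_mul, map_sum, map_mul, Finset.mul_sum, ← hb, ← hb']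
  exact Finset.sum_congr rfl fun p _ => by ring
end

/-- The subring of elements of `R` with bounded denominators. -/
def flatR (A K : Type) [CommRing A] [IsDomain A] [Field K] [Algebra A K] :
    Subring (bigR K) where
  carrier := {f | Den A f}
  zero_mem' := den_zero
  one_mem' := den_one
  neg_mem' := den_neg
  add_mem' := den_add
  mul_mem' := den_mul

universe u

/-- `S` is a polynomial algebra over its subring `T`. -/
def IsPoly {S : Type} [CommRing S] (T : Subring S) : Prop :=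
  ∃ I : Type u, Nonempty (S ≃ₐ[T] MvPolynomial I T)

def S : AddSubmonoid ℚ where
  carrier := {x | ∃ n : ℕ, (n : ℚ) ≤ x ∧ x.den ≤ 2 ^ n}
  zero_mem' := ⟨0, by simp, by simp⟩
  add_mem' := by
    rintro x y ⟨n, h1, h2⟩ ⟨k, h3, h4⟩
    refine ⟨n + k, by push_cast; linarith, ?_⟩
    calc (x + y).den ≤ x.den * y.den :=
          Nat.le_of_dvd (Nat.mul_pos x.den_pos y.den_pos) (Rat.add_den_dvd x y)
      _ ≤ 2 ^ n * 2 ^ k := Nat.mul_le_mul h2 h4
      _ = 2 ^ (n + k) := (pow_add _ _ _).symm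

abbrev A : Type := AddMonoidAlgebra (ZMod 2) S

instance : IsDomain A := NoZeroDivisors.to_isDomain _

abbrev K : Type := FractionRing A

noncomputable def t (s : S) : A := AddMonoidAlgebra.single s 1

theorem t_ne (s : S) : t s ≠ 0 := by simp [t]

theorem t_mul (s u : S) : t s * t u = t (s + u) := by
  simp [t, AddMonoidAlgebra.single_mul_single]

instance : CharP K 2 := by
  have : CharP A 2 := charP_of_injective_algebraMap (algebraMap (ZMod 2) A).injective 2
  exact charP_of_injective_algebraMap (IsFractionRing.injective A K) 2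

theorem half (s : S) : ∃ u N : S, (u : ℚ) = s / 2 + N := by
  have hs : (0 : ℚ) ≤ s := by obtain ⟨n, h, -⟩ := s.2; exact le_trans (by positivity) h
  set N : ℕ := ((s : ℚ) / 2).den
  refine ⟨⟨s / 2 + N, N, by linarith, ?_⟩, ⟨N, 0, by simp, by simp⟩, rfl⟩
  rw [Rat.add_natCast_den]
  exact Nat.lt_two_pow_self.le

noncomputable def U (s : S) : S := (half s).choose
noncomputable def N (s : S) : S := (half s).choose_spec.choose
theorem UN (s : S) : (U s : ℚ) = s / 2 + N s := (half s).choose_spec.choose_spec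

noncomputable def c (s : S) : K := algebraMap A K (t (U s)) / algebraMap A K (t (N s))

theorem tK (s : S) : algebraMap A K (t s) ≠ 0 :=
  (map_ne_zero_iff _ (IsFractionRing.injective A K)).2 (t_ne s)

theorem c_sq (s : S) : c s * c s = algebraMap A K (t s) := by
  unfold c
  have := tK (N s)
  field_simp
  simp only [pow_two, ← map_mul, t_mul]
  congr 2
  ext
  simp only [AddSubmonoid.coe_add, UN]; ring

theorem perf : PerfectField K := by
  have h1 : ∀ a : A, algebraMap A K a ∈ (frobenius K 2).fieldRange := by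
    intro a
    induction a using AddMonoidAlgebra.induction_linear with
    | zero => simp
    | add a b ha hb => rw [map_add]; exact add_mem ha hb
    | single s r =>
      fin_cases r
      · have : (AddMonoidAlgebra.single s 0 : A) = 0 := AddMonoidAlgebra.single_zero s
        show algebraMap A K (AddMonoidAlgebra.single s 0) ∈ _
        rw [this, map_zero]; exact zero_mem _
      · exact ⟨c s, by rw [frobenius_def, pow_two, c_sq]; rfl⟩
  have : PerfectRing K 2 := PerfectRing.ofSurjective K 2 fun x => by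
    obtain ⟨a, b, -, rfl⟩ := IsFractionRing.div_surjective (A := A) x
    exact div_mem (h1 a) (h1 b)
  exact PerfectRing.toPerfectField K 2

def s (k : ℕ) : S := ⟨2 * k + ((2 ^ (2 * k) : ℕ) : ℚ)⁻¹, 2 * k, by
  push_cast; simp, by
  have : (2 * k : ℚ) + ((2 ^ (2 * k) : ℕ) : ℚ)⁻¹ = ((2 ^ (2 * k) : ℕ) : ℚ)⁻¹ + ((2 * k : ℕ) : ℚ) := by
    push_cast; ring
  rw [this, Rat.add_natCast_den, Rat.inv_natCast_den_of_pos (by positivity)]⟩

theorem key (e : S) : ∃ k, (e : ℚ) + s k / 2 ∉ S := by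
  refine ⟨⌈(e : ℚ)⌉₊ + (e : ℚ).den, ?_⟩
  set k := ⌈(e : ℚ)⌉₊ + (e : ℚ).den with hk
  rintro ⟨n, h1, h2⟩
  set x : ℚ := (e : ℚ) + s k / 2 with hx
  have h3 : ((2 ^ (2 * k + 1) : ℕ) : ℚ)⁻¹ = x + -((e : ℚ) + (k : ℕ)) := by
    simp only [hx, s]; push_cast; field_simp; ring
  have h4 := congrArg Rat.den h3
  rw [Rat.inv_natCast_den_of_pos (by positivity)] at h4
  have h5 := Nat.le_of_dvd (Nat.mul_pos x.den_pos (Rat.den_pos _))
    (Rat.add_den_dvd x (-((e : ℚ) + (k : ℕ))))
  rw [← h4, Rat.neg_den, Rat.add_natCast_den] at h5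
  have h6 : 2 ^ (2 * k + 1) ≤ 2 ^ (n + (e : ℚ).den) := by
    rw [pow_add 2 n]
    exact h5.trans (Nat.mul_le_mul h2 Nat.lt_two_pow_self.le)
  have h7 := (Nat.pow_le_pow_iff_right (by norm_num)).1 h6
  have h8 : ((2 ^ (2 * k + 1) : ℕ) : ℚ)⁻¹ < 1 :=
    inv_lt_one_of_one_lt₀ (by exact_mod_cast Nat.one_lt_two_pow (by omega))
  have h9 : (n : ℚ) < ((⌈(e : ℚ)⌉₊ + k + 1 : ℕ) : ℚ) := by
    have := Nat.le_ceil (e : ℚ)
    push_cast at h3 h8 ⊢; linarith
  have := Nat.cast_lt.1 h9
  omega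

noncomputable def l : bigR K :=
  ⟨fun m => if m.degree = 1 then c (s (m.sum fun i _ => i)) else 0, 1, fun m hm => by
    by_contra h
    exact hm (if_neg (by omega))⟩

theorem l_coeff (m : ℕ →₀ ℕ) :
    coeff m l.1 = if m.degree = 1 then c (s (m.sum fun i _ => i)) else 0 := rfl

theorem l_not : l ∉ flatR A K := by
  rintro ⟨d, hd, h⟩
  obtain ⟨e, he⟩ : ∃ e, d.coeff e ≠ 0 := by
    by_contra hn
    push Not at hn
    exact hd (by ext e; simp [hn e])
  obtain ⟨k, hk⟩ := key e
  obtain ⟨b, hb⟩ := h (Finsupp.single k 1)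
  have h0 : ((Finsupp.single k 1 : ℕ →₀ ℕ).sum fun i _ => i) = k := by
    simp [Finsupp.sum]
  rw [l_coeff, if_pos (by simp), h0, c, ← mul_div_assoc, div_eq_iff (tK _), ← map_mul,
    ← map_mul] at hb
  have h1 := congrArg (fun z : A => z.coeff (e + U (s k))) (IsFractionRing.injective A K hb)
  simp only [t, AddMonoidAlgebra.coeff_mul_single_add, mul_one] at h1
  rw [AddMonoidAlgebra.coeff_mul_single_of_forall_add_ne] at h1
  · exact he h1
  · intro x hx
    apply hk
    have h2 := congrArg Subtype.val hx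
    simp only [AddSubmonoid.coe_add, UN] at h2
    have h3 : (e : ℚ) + s k / 2 = x := by linarith
    rw [h3]; exact x.2

theorem l_sq : l * l ∈ flatR A K := by
  classical
  refine ⟨1, one_ne_zero, fun m => ?_⟩
  rw [map_one, one_mul, Subring.coe_mul, coeff_mul,
    ← Finset.sum_filter_add_sum_filter_not _ (fun p : (ℕ →₀ ℕ) × (ℕ →₀ ℕ) => p.1 = p.2)]
  have h0 : ∑ p ∈ (Finset.HasAntidiagonal.antidiagonal m).filter (fun p => ¬ p.1 = p.2),
      coeff p.1 l.1 * coeff p.2 l.1 = 0 := by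
    refine Finset.sum_involution (fun p _ => p.swap) (fun p _ => ?_) (fun p hp _ h => ?_)
      (fun p hp => ?_) (fun p _ => rfl)
    · simp only [Prod.fst_swap, Prod.snd_swap]
      rw [mul_comm (coeff p.2 l.1)]
      exact CharTwo.add_self_eq_zero _
    · exact (Finset.mem_filter.1 hp).2 (congrArg Prod.snd h)
    · simp only [Finset.mem_filter, Finset.HasAntidiagonal.mem_antidiagonal, Prod.fst_swap,
        Prod.snd_swap] at hp ⊢
      exact ⟨by rw [add_comm]; exact hp.1, fun h => hp.2 h.symm⟩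
  rw [h0, add_zero]
  have : ∑ p ∈ (Finset.HasAntidiagonal.antidiagonal m).filter (fun p => p.1 = p.2),
      coeff p.1 l.1 * coeff p.2 l.1 ∈ (algebraMap A K).range := by
    refine sum_mem fun p hp => ?_
    rw [← (Finset.mem_filter.1 hp).2, l_coeff]
    split_ifs
    · exact ⟨_, (c_sq _).symm⟩
    · simp
  obtain ⟨b, hb⟩ := this
  exact ⟨b, hb.symm⟩

theorem result : ∃ (A K : Type) (_ : CommRing A) (_ : IsDomain A) (_ : Field K) (_ : Algebra A K),
    IsFractionRing A K ∧ PerfectField K ∧ ¬ IsPoly.{u} (flatR A K) := by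
  refine ⟨A, K, inferInstance, inferInstance, inferInstance, inferInstance, inferInstance, perf,
    fun ⟨I, ⟨φ⟩⟩ => l_not ?_⟩
  have h1 : φ l * φ l = MvPolynomial.C ⟨l * l, l_sq⟩ := by
    rw [← map_mul]; exact φ.commutes ⟨l * l, l_sq⟩
  have h2 : (φ l).totalDegree = 0 := by
    by_cases h0 : φ l = 0
    · simp [h0]
    · have := congrArg MvPolynomial.totalDegree h1
      rw [MvPolynomial.totalDegree_mul_of_isDomain h0 h0, MvPolynomial.totalDegree_C] at this
      omega
  have h3 := MvPolynomial.totalDegree_eq_zero_iff_eq_C.1 h2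
  have h4 : φ l = φ (algebraMap (flatR A K) _ ((φ l).coeff 0)) := by
    rw [φ.commutes]; exact h3
  rw [φ.injective h4]
  exact ((φ l).coeff 0).2

end Pool.Agent.Results.MP_5fe329_al.NotPoly
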